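import Pool.Agent.Lib_helper61.BX.Defs
import Pool.Agent.Lib_helper56.SGB.Defs

/-!
# CL: the norm of the mollified vectors on the lattices (`BX.HC`), definitions

Everything is about the lattices of `ℚ^n` (subgroups with a basis), `n = m + 1` in the statements.
-/

set_option autoImplicit false

namespace Pool.Agent.CL

open Finset
open Pool.Agent.SGN (Wd wt UW supS subS unrm uvec nf repR repL)
open Pool.Agent.GLQ (Lat Lz latt sp qq)
open Pool.Agent.SGB (IsB)
open Pool.Agent.BX (OF OFy VA VB cw HC)

noncomputable section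

/-- the lattices: the subgroups with a basis (of positive determinant) -/
def FL {n : ℕ} (L : Lat n) : Prop := ∃ d, IsB d L

open Classical in
/-- the number of chains from `L` down to `M` with the indices of the list (first step first) -/
def ch {n : ℕ} : List ℕ → Lat n → Lat n → ℕ
  | [], M, L => if M = L then 1 else 0
  | a :: l, M, L => ∑ L' ∈ subS a L, ch l M L'

/-- the Moebius function of the lattices, as a signed number of chains -/
def mob {n : ℕ} (M L : Lat n) : ℤ := ∑ l ∈ OF (M.relIndex L), (-1) ^ l.length * (ch l M L : ℤ)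

open Classical in
/-- the groups between `M` and `L` -/
def mid {n : ℕ} (M L : Lat n) : Finset (Lat n) :=
  if h : {B : Lat n | M ≤ B ∧ B ≤ L}.Finite then h.toFinset else ∅

/-- no `(n+1)`-st power of a prime divides `k` -/
def Fr (n k : ℕ) : Prop := ∀ p : ℕ, p.Prime → ¬ p ^ (n + 1) ∣ k

/-- the square of the norm -/
def nrm {V : Type} (f : V →₀ ℕ) : ℝ := f.sum fun _ c => (c : ℝ) ^ 2

/-- the number of `(d_1, …, d_n)` with product `m` -/
def dn (n m : ℕ) : ℕ :=
  ((Fintype.piFinset fun _ : Fin n => Nat.divisors m).filter fun d => ∏ i, d i = m).card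

/-! ### weights -/

/-- upper triangular with positive diagonal -/
def UT {n : ℕ} (d : Matrix (Fin n) (Fin n) ℚ) : Prop :=
  (∀ i j, j < i → d i j = 0) ∧ ∀ i, 0 < d i i

/-- the exponents of the weight -/
def ex (n : ℕ) (i : Fin n) : ℝ := ((n : ℝ) - 1) / 2 - (i : ℕ)

open Classical in
/-- the weight `∏ d_ii^(ex i)`, `d` an upper triangular basis -/
def wL {n : ℕ} (L : Lat n) : ℝ :=
  if h : ∃ d, UT d ∧ latt d = L then ∏ i, ((h.choose i i : ℚ) : ℝ) ^ ex n i else 1

end

end Pool.Agent.CL
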